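import Pool.Agent.TH24.GlobMain

/-!
# The homotopy quotient of an `∞`-`C`-groupoid by a group

For an `∞`-`C`-groupoid `W` with an action of the group `A`, the presheaf of pairs of a cocycle `c`
and of a family `φ_p`, indexed by the `0`-cells `p`, of elements of `W(S)` with
`φ_p = c(p, q) φ_q` is an `∞`-`C`-groupoid over `BA`.
-/

set_option autoImplicit false

open CategoryTheory Opposite

namespace Pool.Agent.Y833.GL

open Pool.Agent.TH24.Glob

variable {C : Type} [SmallCategory C] {G : Globe C}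

/-- an action of the group `A` on a presheaf -/
structure Act (A : Type) [Group A] (W : Cᵒᵖ ⥤ Type) where
  /-- the action -/
  act : ∀ {S : C}, A → W.obj (op S) → W.obj (op S)
  one : ∀ {S : C} (w : W.obj (op S)), act 1 w = w
  mul : ∀ {S : C} (a b : A) (w : W.obj (op S)), act (a * b) w = act a (act b w)
  nat : ∀ {S S' : C} (f : S ⟶ S') (a : A) (w : W.obj (op S')),
    W.map f.op (act a w) = act a (W.map f.op w)

variable {A : Type} [Group A]

/-- the values of the homotopy quotient -/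
def HQ (P : Mor G V) {W : Cᵒᵖ ⥤ Type} (α : Act A W) (S : C) : Type :=
  {z : Coc A (P.F.obj S) × (P.F.obj S → W.obj (op S)) // ∀ p q, z.2 p = α.act (z.1.c p q) (z.2 q)}

/-- restriction -/
def HQ.pull {P : Mor G V} {W : Cᵒᵖ ⥤ Type} {α : Act A W} {S S' : C} (f : S ⟶ S')
    (z : HQ P α S') : HQ P α S :=
  ⟨(z.1.1.comap (P.F.map f), fun p => W.map f.op (z.1.2 (P.F.map f p))), fun p q => by
    change W.map f.op (z.1.2 (P.F.map f p)) = α.act _ (W.map f.op (z.1.2 (P.F.map f q)))
    rw [← α.nat, z.2 (P.F.map f p) (P.F.map f q)]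
    rfl⟩

theorem HQ.ext {P : Mor G V} {W : Cᵒᵖ ⥤ Type} {α : Act A W} {S : C} {z w : HQ P α S}
    (h1 : ∀ p q, z.1.1.c p q = w.1.1.c p q) (h2 : ∀ p, z.1.2 p = w.1.2 p) : z = w :=
  Subtype.ext (Prod.ext (Coc.ext' h1) (funext h2))

/-- the presheaf -/
def hqFunctor (P : Mor G V) {W : Cᵒᵖ ⥤ Type} (α : Act A W) : Cᵒᵖ ⥤ Type where
  obj S := HQ P α S.unop
  map f := TypeCat.ofHom fun z => z.pull f.unop
  map_id S := by
    ext z
    refine HQ.ext (fun p q => ?_) (fun p => ?_)
    · change z.1.1.c (P.F.map (𝟙 _) p) (P.F.map (𝟙 _) q) = z.1.1.c p q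
      rw [P.F.map_id, types_id_apply, types_id_apply]
    · change W.map (𝟙 S) (z.1.2 (P.F.map (𝟙 _) p)) = z.1.2 p
      rw [P.F.map_id, W.map_id, types_id_apply, types_id_apply]
  map_comp {S T U} f g := by
    ext z
    refine HQ.ext (fun p q => ?_) (fun p => ?_)
    · change z.1.1.c (P.F.map (g.unop ≫ f.unop) p) (P.F.map (g.unop ≫ f.unop) q) =
        z.1.1.c (P.F.map f.unop (P.F.map g.unop p)) (P.F.map f.unop (P.F.map g.unop q))
      rw [P.F.map_comp, types_comp_apply, types_comp_apply]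
    · change W.map (f ≫ g) (z.1.2 (P.F.map (g.unop ≫ f.unop) p)) =
        W.map g (W.map f (z.1.2 (P.F.map f.unop (P.F.map g.unop p))))
      rw [P.F.map_comp, W.map_comp, types_comp_apply, types_comp_apply]

theorem P_nonempty (hG : IsCoherator G) (P : Mor G V) (S : C) : Nonempty (P.F.obj S) := by
  obtain ⟨T, ι, hι⟩ := isGS_coherator hG S
  obtain ⟨x⟩ : Nonempty (V.D (T.top 0)) := inferInstance
  exact ⟨P.F.map (ι 0) ((P.e _).inv x)⟩

/-- the homotopy quotient is an `∞`-`C`-groupoid -/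
theorem hq_isInfGroupoid (P : Mor G V) {W : Cᵒᵖ ⥤ Type} (hW : IsInfGroupoid G W) (α : Act A W) :
    IsInfGroupoid G (hqFunctor P α) := by
  intro T S ι hS x hx
  have neP : ∀ i, Nonempty (P.F.obj (G.D i)) := fun i => by
    obtain ⟨v⟩ : Nonempty (V.D i) := inferInstance
    exact ⟨(P.e i).inv v⟩
  have hx' : ∀ k : Fin T.m, HQ.pull (G.itσ (T.lt_left k).le) (x k.castSucc) =
      HQ.pull (G.itτ (T.lt_right k).le) (x k.succ) := hx
  -- the cocycle
  obtain ⟨c, hc, hc'⟩ := (BA A P).property T ι hS (fun k => (x k).1.1)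
    (fun k => congrArg (fun z => z.1.1) (hx' k))
  change Coc A (P.F.obj S) at c
  have hself : ∀ q, c.c q q = 1 := fun q => Coc.self c q
  have hcv : ∀ k p q, c.c (P.F.map (ι k) p) (P.F.map (ι k) q) = (x k).1.1.c p q :=
    fun k p q => Coc.congr (hc k) p q
  have hcomp : ∀ (k : Fin T.m) (q : P.F.obj (G.D (T.bot k))),
      P.F.map (ι k.castSucc) (P.F.map (G.itσ (T.lt_left k).le) q) =
        P.F.map (ι k.succ) (P.F.map (G.itτ (T.lt_right k).le) q) := by
    intro k q
    rw [P_map_map, P_map_map, hS.compat k]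
  -- the local pieces
  let r : ∀ k, P.F.obj (G.D (T.top k)) := fun k => (neP _).some
  let w : P.F.obj S → ∀ k, W.obj (op (G.D (T.top k))) := fun p k =>
    α.act (c.c p (P.F.map (ι k) (r k))) ((x k).1.2 (r k))
  have hw : ∀ p k q, w p k = α.act (c.c p (P.F.map (ι k) q)) ((x k).1.2 q) := by
    intro p k q
    change α.act _ _ = _
    rw [(x k).2 q (r k), ← α.mul, ← hcv, c.mul]
  have hg : ∀ p, ∃! y : W.obj (op S), ∀ k, W.map (ι k).op y = w p k := by
    intro p
    refine hW T ι hS (w p) fun k => ?_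
    obtain ⟨q⟩ := neP (T.bot k)
    rw [hw p k.castSucc (P.F.map (G.itσ (T.lt_left k).le) q),
      hw p k.succ (P.F.map (G.itτ (T.lt_right k).le) q), α.nat, α.nat, hcomp]
    exact congrArg _ (congrFun (congrArg (fun z => z.1.2) (hx' k)) q)
  choose φ hφ hφ' using hg
  dsimp only at hφ hφ'
  have hact : ∀ p q, φ p = α.act (c.c p q) (φ q) := by
    intro p q
    symm
    apply hφ'
    intro k
    rw [α.nat, hφ, hw q k (r k), ← α.mul, c.mul]
  refine ⟨⟨(c, φ), hact⟩, fun k => ?_, ?_⟩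
  · refine HQ.ext (fun p q => ?_) (fun p => ?_)
    · exact hcv k p q
    · change W.map (ι k).op (φ (P.F.map (ι k) p)) = (x k).1.2 p
      rw [hφ, hw _ k p, hself, α.one]
  · rintro ⟨⟨c', φ'⟩, hact'⟩ h'
    have h'' : ∀ k, HQ.pull (ι k) ⟨⟨c', φ'⟩, hact'⟩ = x k := h'
    have e1 : c' = c := hc' c' fun k => congrArg (fun z => z.1.1) (h'' k)
    subst e1
    refine HQ.ext (fun p q => rfl) (fun p => ?_)
    apply hφ'
    intro k
    have h3 : W.map (ι k).op (φ' (P.F.map (ι k) (r k))) = (x k).1.2 (r k) :=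
      congrFun (congrArg (fun z => z.1.2) (h'' k)) (r k)
    change W.map (ι k).op (φ' p) = _
    have h4 : φ' p = α.act (c'.c p (P.F.map (ι k) (r k))) (φ' (P.F.map (ι k) (r k))) :=
      hact' p (P.F.map (ι k) (r k))
    rw [h4, α.nat]
    change α.act _ (W.map (ι k).op (φ' (P.F.map (ι k) (r k)))) = _
    rw [h3]

/-- the homotopy quotient -/
def hq (P : Mor G V) {W : Cᵒᵖ ⥤ Type} (hW : IsInfGroupoid G W) (α : Act A W) : InfGrpd G where
  obj := hqFunctor P α
  property := hq_isInfGroupoid P hW α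

/-- the projection to `BA` -/
def hqProj (P : Mor G V) {W : Cᵒᵖ ⥤ Type} (hW : IsInfGroupoid G W) (α : Act A W) :
    hq P hW α ⟶ BA A P :=
  ObjectProperty.homMk
    { app := fun _ => TypeCat.ofHom fun z => z.1.1
      naturality := fun _ _ _ => rfl }

/-- every parallel pair of `W` is connected by a cell -/
def Contr (G : Globe C) (W : Cᵒᵖ ⥤ Type) : Prop :=
  Nonempty (W.obj (op (G.D 0))) ∧ (∀ w w' : W.obj (op (G.D 0)), ∃ k : W.obj (op (G.D 1)),
    W.map (G.σ 0).op k = w ∧ W.map (G.τ 0).op k = w') ∧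
  ∀ i (w w' : W.obj (op (G.D (i + 1)))), W.map (G.σ i).op w = W.map (G.σ i).op w' →
    W.map (G.τ i).op w = W.map (G.τ i).op w' → ∃ k : W.obj (op (G.D (i + 2))),
      W.map (G.σ (i + 1)).op k = w ∧ W.map (G.τ (i + 1)).op k = w'

/-- parallel cells -/
def CPar (X : InfGrpd G) : ∀ {i : ℕ}, cell X i → cell X i → Prop
  | 0, _, _ => True
  | _ + 1, x, y => src X x = src X y ∧ tgt X x = tgt X y

/-- a morphism with the lifting property for parallel cells is a weak equivalence -/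
theorem weakEq_of_lift (hG : IsCoherator G) (κ : Units G) {X Y : InfGrpd G} (f : X ⟶ Y)
    (h0 : Function.Surjective (onCell f : cell X 0 → cell Y 0))
    (hl : ∀ i (x y : cell X i), CPar X x y → ∀ h : cell Y (i + 1), src Y h = onCell f x →
      tgt Y h = onCell f y → ∃ h' : cell X (i + 1), src X h' = x ∧ tgt X h' = y ∧
        onCell f h' = h) : weakEq κ f := by
  refine ⟨⟨?_, ?_⟩, fun x i => ⟨?_, ?_⟩⟩
  · intro a b hab
    induction a using Quot.ind with | mk a => ?_
    induction b using Quot.ind with | mk b => ?_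
    have hE : Equivalence (Homotopic Y (i := 0)) :=
      ⟨fun a => homotopic_refl hG Y a, fun h => homotopic_symm hG Y h,
        fun h h' => homotopic_trans hG Y h h'⟩
    obtain ⟨k, h1, h2⟩ := (hE.eqvGen_iff).1 (Quot.eqvGen_exact hab)
    obtain ⟨h', h3, h4, -⟩ := hl 0 a b trivial k h1 h2
    exact Quot.sound ⟨h', h3, h4⟩
  · intro b
    induction b using Quot.ind with | mk b => ?_
    obtain ⟨a, rfl⟩ := h0 b
    exact ⟨Quot.mk _ a, rfl⟩
  · intro a b hab
    induction a using Quot.ind with | mk a => ?_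
    induction b using Quot.ind with | mk b => ?_
    have hE : Equivalence fun a b : {a : cell Y (i + 1) //
        src Y a = unit κ Y (onCell f x) i ∧ tgt Y a = unit κ Y (onCell f x) i} =>
        Homotopic Y a.1 b.1 :=
      ⟨fun a => homotopic_refl hG Y a.1, fun h => homotopic_symm hG Y h,
        fun h h' => homotopic_trans hG Y h h'⟩
    obtain ⟨k, h1, h2⟩ := (hE.eqvGen_iff).1 (Quot.eqvGen_exact hab)
    obtain ⟨h', h3, h4, -⟩ := hl (i + 1) a.1 b.1
      ⟨a.2.1.trans b.2.1.symm, a.2.2.trans b.2.2.symm⟩ k h1 h2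
    exact Quot.sound ⟨h', h3, h4⟩
  · intro b
    induction b using Quot.ind with | mk b => ?_
    have hpar : CPar X (unit κ X x i) (unit κ X x i) := by
      cases i with
      | zero => trivial
      | succ i => exact ⟨rfl, rfl⟩
    obtain ⟨h', h3, h4, h5⟩ := hl i (unit κ X x i) (unit κ X x i) hpar b.1
      (b.2.1.trans (onCell_unit κ f x i).symm) (b.2.2.trans (onCell_unit κ f x i).symm)
    exact ⟨Quot.mk _ ⟨h', h3, h4⟩, congrArg (Quot.mk _) (Subtype.ext h5)⟩

/-- the projection of the homotopy quotient has the lifting property -/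
theorem hqProj_lift (P : Mor G V) {W : Cᵒᵖ ⥤ Type} (hW : IsInfGroupoid G W) (α : Act A W)
    (hc : Contr G W) (i : ℕ) (x y : cell (hq P hW α) i) (hxy : CPar _ x y)
    (h : cell (BA A P) (i + 1)) (h1 : src _ h = onCell (hqProj P hW α) x)
    (h2 : tgt _ h = onCell (hqProj P hW α) y) :
    ∃ h' : cell (hq P hW α) (i + 1), src _ h' = x ∧ tgt _ h' = y ∧
      onCell (hqProj P hW α) h' = h := by
  have neP : ∀ i, Nonempty (P.F.obj (G.D i)) := fun i => by
    obtain ⟨v⟩ : Nonempty (V.D i) := inferInstance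
    exact ⟨(P.e i).inv v⟩
  obtain ⟨p0⟩ := neP (i + 1)
  obtain ⟨q0⟩ := neP i
  obtain ⟨⟨cx, φx⟩, hx⟩ := x
  obtain ⟨⟨cy, φy⟩, hy⟩ := y
  change Coc A (P.F.obj (G.D (i + 1))) at h
  have h1' : ∀ p q, h.c (P.F.map (G.σ i) p) (P.F.map (G.σ i) q) = cx.c p q :=
    fun p q => Coc.congr h1 p q
  have h2' : ∀ p q, h.c (P.F.map (G.τ i) p) (P.F.map (G.τ i) q) = cy.c p q :=
    fun p q => Coc.congr h2 p q
  let w : W.obj (op (G.D i)) := α.act (h.c p0 (P.F.map (G.σ i) q0)) (φx q0)
  let w' : W.obj (op (G.D i)) := α.act (h.c p0 (P.F.map (G.τ i) q0)) (φy q0)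
  have hw : ∀ q, w = α.act (h.c p0 (P.F.map (G.σ i) q)) (φx q) := by
    intro q
    have := hx q q0
    dsimp only at this
    rw [this, ← α.mul, ← h1', h.mul]
  have hw' : ∀ q, w' = α.act (h.c p0 (P.F.map (G.τ i) q)) (φy q) := by
    intro q
    have := hy q q0
    dsimp only at this
    rw [this, ← α.mul, ← h2', h.mul]
  -- the cell of `W`
  have key : ∃ k : W.obj (op (G.D (i + 1))), W.map (G.σ i).op k = w ∧
      W.map (G.τ i).op k = w' := by
    cases i with
    | zero => exact hc.2.1 w w'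
    | succ i =>
      obtain ⟨hs, ht⟩ := hxy
      have hs2 : ∀ q, W.map (G.σ i).op (φx (P.F.map (G.σ i) q)) =
          W.map (G.σ i).op (φy (P.F.map (G.σ i) q)) := fun q =>
        congrFun (congrArg (fun z => z.1.2) hs) q
      have ht2 : ∀ q, W.map (G.τ i).op (φx (P.F.map (G.τ i) q)) =
          W.map (G.τ i).op (φy (P.F.map (G.τ i) q)) := fun q =>
        congrFun (congrArg (fun z => z.1.2) ht) q
      obtain ⟨r⟩ := neP i
      refine hc.2.2 i w w' ?_ ?_
      · rw [hw (P.F.map (G.σ i) r), hw' (P.F.map (G.σ i) r), α.nat, α.nat, hs2, P_map_map,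
          P_map_map, G.σσ]
      · rw [hw (P.F.map (G.τ i) r), hw' (P.F.map (G.τ i) r), α.nat, α.nat, ht2, P_map_map,
          P_map_map, G.ττ]
  obtain ⟨k, hk1, hk2⟩ := key
  refine ⟨⟨(h, fun p => α.act (h.c p p0) k), fun p q => ?_⟩, ?_, ?_, rfl⟩
  · change α.act (h.c p p0) k = α.act (h.c p q) (α.act (h.c q p0) k)
    rw [← α.mul, h.mul]
  · refine HQ.ext (fun p q => h1' p q) (fun p => ?_)
    change W.map (G.σ i).op (α.act (h.c (P.F.map (G.σ i) p) p0) k) = φx p
    rw [α.nat, hk1, hw p, ← α.mul, h.mul, Coc.self, α.one]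
  · refine HQ.ext (fun p q => h2' p q) (fun p => ?_)
    change W.map (G.τ i).op (α.act (h.c (P.F.map (G.τ i) p) p0) k) = φy p
    rw [α.nat, hk2, hw' p, ← α.mul, h.mul, Coc.self, α.one]

theorem hqProj_weakEq (hG : IsCoherator G) (κ : Units G) (P : Mor G V) {W : Cᵒᵖ ⥤ Type}
    (hW : IsInfGroupoid G W) (α : Act A W) (hc : Contr G W) : weakEq κ (hqProj P hW α) := by
  refine weakEq_of_lift hG κ _ (fun y => ?_) (fun i x y hxy h h1 h2 =>
    hqProj_lift P hW α hc i x y hxy h h1 h2)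
  obtain ⟨w⟩ := hc.1
  refine ⟨⟨(y, fun _ => w), fun p q => ?_⟩, rfl⟩
  have : p = q := P_zero P p q
  subst this
  have hs : Coc.c (A := A) (X := P.F.obj (G.D 0)) y p p = 1 :=
    Coc.self (A := A) (X := P.F.obj (G.D 0)) y p
  exact ((congrArg (fun a => α.act a w) hs).trans (α.one w)).symm

end Pool.Agent.Y833.GL
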