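import Pool.Agent.Y833.GL.Borel

/-!
# The `∞`-`C`-groupoid of the real line, with the action of the integers
-/

set_option autoImplicit false

open CategoryTheory Opposite Topology

namespace Pool.Agent.Y833.GL

open Pool.Agent.TH24.Glob

/-- two functions on a disk which agree on the boundary are joined by a function on the next disk -/
theorem disk_interp {i : ℕ} (f g : Disk i → ℝ) (hf : Continuous f) (hg : Continuous g)
    (hfg : ∀ x : Disk i, ∑ j, x.1 j ^ 2 = 1 → f x = g x) :
    ∃ k : Disk (i + 1) → ℝ, Continuous k ∧ (∀ x, k (diskMap (-1) (by norm_num) i x) = f x) ∧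
      ∀ x, k (diskMap 1 (by norm_num) i x) = g x := by
  have hsum : ∀ z : Disk (i + 1),
      ∑ j : Fin i, z.1 j.castSucc ^ 2 + z.1 (Fin.last i) ^ 2 ≤ 1 := by
    intro z
    have := z.2
    rwa [Fin.sum_univ_castSucc] at this
  let X : Disk (i + 1) → Disk i := fun z => ⟨fun j => z.1 j.castSucc, by
    have := hsum z
    nlinarith [sq_nonneg (z.1 (Fin.last i))]⟩
  have hX : Continuous X := Continuous.subtype_mk
    (continuous_pi fun j => (continuous_apply j.castSucc).comp continuous_subtype_val) _
  let r : Disk (i + 1) → ℝ := fun z => Real.sqrt (1 - ∑ j, (X z).1 j ^ 2)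
  let t : Disk (i + 1) → ℝ := fun z => z.1 (Fin.last i)
  have ht : Continuous t := (continuous_apply (Fin.last i)).comp continuous_subtype_val
  have hr : Continuous r := Real.continuous_sqrt.comp (continuous_const.sub
    (continuous_finsetSum _ fun k _ => (((continuous_apply k).comp continuous_subtype_val).comp
      hX).pow 2))
  have hr0 : ∀ z, 0 ≤ r z := fun z => Real.sqrt_nonneg _
  have htr : ∀ z, |t z| ≤ r z := by
    intro z
    refine Real.abs_le_sqrt ?_
    have := hsum z
    change z.1 (Fin.last i) ^ 2 ≤ 1 - ∑ j : Fin i, z.1 j.castSucc ^ 2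
    linarith
  have hr1 : ∀ z, r z = 0 → f (X z) = g (X z) := by
    intro z hz
    apply hfg
    have h1 : 1 - ∑ j, (X z).1 j ^ 2 ≤ 0 := Real.sqrt_eq_zero'.1 hz
    exact le_antisymm (X z).2 (by linarith)
  have hlam : ∀ z, |(r z + t z) / (2 * r z)| ≤ 1 := by
    intro z
    rcases (hr0 z).eq_or_lt with h0 | h0
    · rw [← h0]
      simp
    · have h1 := abs_le.1 (htr z)
      rw [abs_le]
      constructor
      · rw [le_div_iff₀ (by positivity)]
        linarith
      · rw [div_le_iff₀ (by positivity)]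
        linarith
  refine ⟨fun z => f (X z) + (r z + t z) / (2 * r z) * (g (X z) - f (X z)), ?_, ?_, ?_⟩
  · refine (hf.comp hX).add ?_
    rw [continuous_iff_continuousAt]
    intro z0
    rcases eq_or_ne (r z0) 0 with h0 | h0
    · have hD : Filter.Tendsto (fun z => g (X z) - f (X z)) (𝓝 z0) (𝓝 0) := by
        have h1 : Continuous (fun z => g (X z) - f (X z)) := (hg.comp hX).sub (hf.comp hX)
        have h2 := h1.tendsto z0
        rw [← hr1 z0 h0, sub_self] at h2
        exact h2
      have h3 : (r z0 + t z0) / (2 * r z0) * (g (X z0) - f (X z0)) = 0 := by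
        rw [hr1 z0 h0]
        simp
      unfold ContinuousAt
      dsimp only
      rw [h3]
      refine squeeze_zero_norm (a := fun z => ‖g (X z) - f (X z)‖) (fun z => ?_) ?_
      · rw [norm_mul]
        have h4 : ‖(r z + t z) / (2 * r z)‖ ≤ 1 := hlam z
        exact (mul_le_mul_of_nonneg_right h4 (norm_nonneg _)).trans (one_mul _).le
      · have := hD.norm
        rwa [norm_zero] at this
    · have h1 : ContinuousAt (fun z => (r z + t z) / (2 * r z)) z0 :=
        ((hr.continuousAt.add ht.continuousAt).div (continuousAt_const.mul hr.continuousAt)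
          (mul_ne_zero two_ne_zero h0))
      exact h1.mul ((hg.comp hX).sub (hf.comp hX)).continuousAt
  · intro x
    have h1 : X (diskMap (-1) (by norm_num) i x) = x := by
      apply Subtype.ext
      funext j
      change (Fin.snoc x.1 _ : Fin (i + 1) → ℝ) j.castSucc = _
      rw [Fin.snoc_castSucc]
    have h2 : t (diskMap (-1) (by norm_num) i x) = -Real.sqrt (1 - ∑ j, x.1 j ^ 2) := by
      change (Fin.snoc x.1 _ : Fin (i + 1) → ℝ) (Fin.last i) = _
      rw [Fin.snoc_last]
      ring
    have h3 : r (diskMap (-1) (by norm_num) i x) = Real.sqrt (1 - ∑ j, x.1 j ^ 2) := by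
      change Real.sqrt (1 - ∑ j, (X _).1 j ^ 2) = _
      rw [h1]
    dsimp only
    rw [h1, h2, h3]
    simp
  · intro x
    have h1 : X (diskMap 1 (by norm_num) i x) = x := by
      apply Subtype.ext
      funext j
      change (Fin.snoc x.1 _ : Fin (i + 1) → ℝ) j.castSucc = _
      rw [Fin.snoc_castSucc]
    have h2 : t (diskMap 1 (by norm_num) i x) = Real.sqrt (1 - ∑ j, x.1 j ^ 2) := by
      change (Fin.snoc x.1 _ : Fin (i + 1) → ℝ) (Fin.last i) = _
      rw [Fin.snoc_last]
      ring
    have h3 : r (diskMap 1 (by norm_num) i x) = Real.sqrt (1 - ∑ j, x.1 j ^ 2) := by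
      change Real.sqrt (1 - ∑ j, (X _).1 j ^ 2) = _
      rw [h1]
    have h4 := hr1 (diskMap 1 (by norm_num) i x)
    dsimp only
    rw [h1, h3] at h4
    rw [h1, h2, h3]
    rcases eq_or_ne (Real.sqrt (1 - ∑ j, x.1 j ^ 2)) 0 with h0 | h0
    · rw [h4 h0]
      simp
    · field_simp
      ring

/-- the points of the boundary are in the image of the source or of the target map -/
theorem disk_boundary {i : ℕ} (x : Disk (i + 1)) (hx : ∑ j, x.1 j ^ 2 = 1) :
    ∃ y : Disk i, x = diskMap (-1) (by norm_num) i y ∨ x = diskMap 1 (by norm_num) i y := by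
  have hs : ∑ j : Fin i, x.1 j.castSucc ^ 2 + x.1 (Fin.last i) ^ 2 = 1 := by
    rwa [Fin.sum_univ_castSucc] at hx
  have h1 : 1 - ∑ j : Fin i, x.1 j.castSucc ^ 2 = x.1 (Fin.last i) ^ 2 := by linarith
  refine ⟨⟨fun j => x.1 j.castSucc, by nlinarith [sq_nonneg (x.1 (Fin.last i))]⟩, ?_⟩
  rcases le_total (x.1 (Fin.last i)) 0 with h | h
  · left
    apply Subtype.ext
    funext j
    refine Fin.lastCases ?_ (fun j => ?_) j
    · change _ = (Fin.snoc _ _ : Fin (i + 1) → ℝ) (Fin.last i)
      rw [Fin.snoc_last, h1, Real.sqrt_sq_eq_abs, abs_of_nonpos h]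
      ring
    · change _ = (Fin.snoc _ _ : Fin (i + 1) → ℝ) j.castSucc
      rw [Fin.snoc_castSucc]
  · right
    apply Subtype.ext
    funext j
    refine Fin.lastCases ?_ (fun j => ?_) j
    · change _ = (Fin.snoc _ _ : Fin (i + 1) → ℝ) (Fin.last i)
      rw [Fin.snoc_last, h1, Real.sqrt_sq_eq_abs, abs_of_nonneg h]
      ring
    · change _ = (Fin.snoc _ _ : Fin (i + 1) → ℝ) j.castSucc
      rw [Fin.snoc_castSucc]

/-- the real line -/
noncomputable def line : TopCat.{0} := TopCat.of ℝ

theorem line_lift {i : ℕ} (f g : disks.D i ⟶ line) (h : disks.Parallel f g) :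
    ∃ k, disks.IsLifting f g k := by
  obtain ⟨k, hk, hk1, hk2⟩ := disk_interp (i := i) (fun x => f x) (fun x => g x)
    f.hom.continuous g.hom.continuous (by
      intro x hx
      cases i with
      | zero => simp at hx
      | succ i =>
        obtain ⟨y, hy⟩ := disk_boundary x hx
        rcases hy with rfl | rfl
        · exact ConcreteCategory.congr_hom h.1 y
        · exact ConcreteCategory.congr_hom h.2 y)
  refine ⟨TopCat.ofHom ⟨k, hk⟩, ?_, ?_⟩
  · ext x
    exact hk1 x
  · ext x
    exact hk2 x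

variable {C : Type} [SmallCategory C] {G : Globe C}

/-- the presheaf of maps to the line -/
noncomputable def LW (F : Mor G disks) : Cᵒᵖ ⥤ Type := F.F.op ⋙ yoneda.obj line

theorem LW_isInfGroupoid (F : Mor G disks) : IsInfGroupoid G (LW F) := isInfGroupoid_hom F line

theorem LW_key (F : Mor G disks) {i : ℕ} (w w' : F.F.obj (G.D i) ⟶ line)
    (h : disks.Parallel ((F.e i).inv ≫ w) ((F.e i).inv ≫ w')) :
    ∃ k : F.F.obj (G.D (i + 1)) ⟶ line, F.F.map (G.σ i) ≫ k = w ∧ F.F.map (G.τ i) ≫ k = w' := by
  obtain ⟨k, hk1, hk2⟩ := line_lift _ _ h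
  refine ⟨(F.e (i + 1)).hom ≫ k, ?_, ?_⟩
  · rw [← Category.assoc, F.hσ, Category.assoc, hk1, Iso.hom_inv_id_assoc]
  · rw [← Category.assoc, F.hτ, Category.assoc, hk2, Iso.hom_inv_id_assoc]

theorem LW_contr (F : Mor G disks) : Contr G (LW F) := by
  refine ⟨⟨TopCat.ofHom (ContinuousMap.const _ (0 : ℝ))⟩, fun w w' => ?_, fun i w w' h1 h2 => ?_⟩
  · exact LW_key F w w' trivial
  · change F.F.obj (G.D (i + 1)) ⟶ line at w w'
    have h1' : F.F.map (G.σ i) ≫ w = F.F.map (G.σ i) ≫ w' := h1
    have h2' : F.F.map (G.τ i) ≫ w = F.F.map (G.τ i) ≫ w' := h2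
    refine LW_key F w w' ⟨?_, ?_⟩
    · rw [← Category.assoc, ← Category.assoc, F.map_σ, Category.assoc, Category.assoc, h1']
    · rw [← Category.assoc, ← Category.assoc, F.map_τ, Category.assoc, Category.assoc, h2']

/-- the group of integers -/
abbrev Zm : Type := Multiplicative ℤ

/-- the values of an element of the presheaf of the line -/
noncomputable def ev {F : Mor G disks} {S : C} (w : (LW F).obj (op S)) (x : F.F.obj S) : ℝ :=
  (show F.F.obj S ⟶ line from w) x

theorem ev_continuous {F : Mor G disks} {S : C} (w : (LW F).obj (op S)) : Continuous (ev w) :=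
  (show F.F.obj S ⟶ line from w).hom.continuous

theorem ev_ext {F : Mor G disks} {S : C} {w w' : (LW F).obj (op S)}
    (h : ∀ x, ev w x = ev w' x) : w = w' :=
  ConcreteCategory.hom_ext (X := F.F.obj S) (Y := line) w w' h

/-- translations -/
noncomputable def LWact (F : Mor G disks) : Act Zm (LW F) where
  act {S} a w := TopCat.ofHom (X := F.F.obj S) (Y := ℝ)
    ⟨fun x => ev w x + ((Multiplicative.toAdd a : ℤ) : ℝ),
      (ev_continuous w).add continuous_const⟩
  one {S} w := by
    apply ev_ext
    intro x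
    change ev w x + ((0 : ℤ) : ℝ) = _
    rw [Int.cast_zero, add_zero]
  mul {S} a b w := by
    apply ev_ext
    intro x
    change ev w x + ((Multiplicative.toAdd a + Multiplicative.toAdd b : ℤ) : ℝ) =
      ev w x + ((Multiplicative.toAdd b : ℤ) : ℝ) + ((Multiplicative.toAdd a : ℤ) : ℝ)
    push_cast
    ring
  nat f a w := rfl

theorem ev_act {F : Mor G disks} {S : C} (a : Zm) (w : (LW F).obj (op S)) (x : F.F.obj S) :
    ev ((LWact F).act a w) x = ev w x + ((Multiplicative.toAdd a : ℤ) : ℝ) := rfl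

end Pool.Agent.Y833.GL
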