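import Pool.Agent.TH24.GlobMain

/-!
# Free loops in spaces invert weak homotopy equivalences
-/

set_option autoImplicit false

open CategoryTheory Opposite

namespace Pool.Agent.Y833.GL

open Pool.Agent.TH24.Glob

/-- The map induced on homotopy classes of loops by a map which is bijective on the first homotopy
groups is bijective. -/
theorem loopMap_bijective {X Y : Type} [TopologicalSpace X] [TopologicalSpace Y] (f : C(X, Y))
    (x : X) (h : Function.Bijective (homotopyGroupMap f (Fin 1) x)) :
    Function.Bijective (fun a : Path.Homotopic.Quotient x x => a.map f) := by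
  have e : ∀ a : HomotopyGroup (Fin 1) X x,
      (show Path.Homotopic.Quotient (f x) (f x) from
        homotopyGroupEquivFundamentalGroupOfUnique (Fin 1) (homotopyGroupMap f (Fin 1) x a)) =
      Path.Homotopic.Quotient.map
        (show Path.Homotopic.Quotient x x from
          homotopyGroupEquivFundamentalGroupOfUnique (Fin 1) a) f := by
    intro a
    induction a using Quotient.inductionOn' with | h a => ?_
    rfl
  have e1 : (fun a : Path.Homotopic.Quotient x x => a.map f) =
      (fun b => homotopyGroupEquivFundamentalGroupOfUnique (Fin 1) b) ∘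
        homotopyGroupMap f (Fin 1) x ∘
        (homotopyGroupEquivFundamentalGroupOfUnique (X := X) (x := x) (Fin 1)).symm := by
    funext a
    have h1 := e ((homotopyGroupEquivFundamentalGroupOfUnique (X := X) (x := x) (Fin 1)).symm a)
    rw [Equiv.apply_symm_apply] at h1
    exact h1.symm
  rw [e1]
  exact ((Equiv.bijective _).comp h).comp (Equiv.bijective _)

theorem topLoops_bijective {X Y : TopCat.{0}} (f : X ⟶ Y) (hf : weakHomotopyEq f) :
    Function.Bijective (loopsMap (FundamentalGroupoid.map f.hom)) := by
  refine loopsMap_bijective _ ?_ ?_ ?_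
  · rintro ⟨y⟩
    obtain ⟨x, hx⟩ := hf.1.2 (Quotient.mk'' y)
    induction x using Quotient.inductionOn' with | h x => ?_
    obtain ⟨p⟩ : Joined (f.hom x) y := Quotient.exact hx
    exact ⟨⟨x⟩, ⟨Path.Homotopic.Quotient.mk p⟩⟩
  · rintro ⟨x⟩ ⟨x'⟩ ⟨q⟩
    induction q using Quotient.inductionOn' with | h q => ?_
    have h1 : zerothMap f.hom (Quotient.mk'' x) = zerothMap f.hom (Quotient.mk'' x') :=
      Quotient.sound (s := pathSetoid Y) ⟨q⟩
    obtain ⟨p⟩ : Joined x x' := Quotient.exact (hf.1.1 h1)
    exact ⟨Path.Homotopic.Quotient.mk p⟩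
  · rintro ⟨x⟩
    exact loopMap_bijective f.hom x (hf.2 0 x)

/-- the functor of free loops on spaces -/
noncomputable def topLoops : TopCat.{0} ⥤ Type where
  obj X := Loops (FundamentalGroupoid X)
  map f := TypeCat.ofHom (loopsMap (FundamentalGroupoid.map f.hom))
  map_id X := by
    ext a
    induction a using Quot.ind with | mk a => ?_
    obtain ⟨x, a⟩ := a
    change Path.Homotopic.Quotient x.as x.as at a
    induction a using Quotient.inductionOn' with | h a => ?_
    rfl
  map_comp f g := by
    ext a
    induction a using Quot.ind with | mk a => ?_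
    obtain ⟨x, a⟩ := a
    change Path.Homotopic.Quotient x.as x.as at a
    induction a using Quotient.inductionOn' with | h a => ?_
    rfl

theorem topLoops_inverts : weakHomotopyEq.IsInvertedBy topLoops := by
  intro X Y f hf
  rw [isIso_iff_bijective]
  exact topLoops_bijective f hf

/-- all free loops in a space with one point are equal -/
theorem topLoops_subsingleton {Y : TopCat.{0}} (hY : ∀ x y : Y, x = y)
    (a b : topLoops.obj Y) : a = b := by
  change Loops (FundamentalGroupoid Y) at a b
  induction a using Quot.ind with | mk a => ?_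
  induction b using Quot.ind with | mk b => ?_
  obtain ⟨⟨x⟩, a⟩ := a
  obtain ⟨⟨y⟩, b⟩ := b
  obtain rfl := hY x y
  congr 2
  change Path.Homotopic.Quotient x x at a b
  induction a using Quotient.inductionOn' with | h a => ?_
  induction b using Quotient.inductionOn' with | h b => ?_
  exact congrArg (Quotient.mk _) (Path.ext (funext fun t => hY _ _))

/-- A loop in `X` with a map to the circle which lifts to the standard path from `0` to `1` is not
null homotopic; if a map from `X` to a point induced a bijection of free loops, it would be. -/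
theorem not_iso_of_loop {X Y : TopCat.{0}} (f : X ⟶ Y) (hY : ∀ x y : Y, x = y)
    (u : C(X, AddCircle (1 : ℝ))) (x : X) (ℓ : Path x x)
    (hu : ∀ t : unitInterval, u (ℓ t) = ((t : ℝ) : AddCircle (1 : ℝ))) :
    ¬ Function.Injective (topLoops.map f) := by
  intro hinj
  have h1 : (Quot.mk _ ⟨⟨x⟩, Path.Homotopic.Quotient.mk ℓ⟩ : Loops (FundamentalGroupoid X)) =
      Quot.mk _ ⟨⟨x⟩, 𝟙 (⟨x⟩ : FundamentalGroupoid X)⟩ := hinj (topLoops_subsingleton hY _ _)
  obtain ⟨p, hp⟩ := loops_exact h1
  have h2 : (Path.Homotopic.Quotient.mk ℓ : (⟨x⟩ : FundamentalGroupoid X) ⟶ ⟨x⟩) =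
      𝟙 (⟨x⟩ : FundamentalGroupoid X) := by
    have h3 : (Path.Homotopic.Quotient.mk ℓ : (⟨x⟩ : FundamentalGroupoid X) ⟶ ⟨x⟩) ≫ p =
        p ≫ 𝟙 (⟨x⟩ : FundamentalGroupoid X) := hp
    rw [Category.comp_id] at h3
    rw [← cancel_mono p, h3, Category.id_comp]
  have h4 : ℓ.Homotopic (Path.refl x) := Quotient.exact h2
  have h5 : (ℓ.toContinuousMap).HomotopicRel (Path.refl x).toContinuousMap {0, 1} := h4
  have h6 := h5.comp_continuousMap u
  have cov := AddCircle.isCoveringMap_coe (1 : ℝ)
  have hx0 : u x = ((0 : ℝ) : AddCircle (1 : ℝ)) := by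
    have := hu 0
    simpa using this
  have h7 := cov.liftPath_apply_one_eq_of_homotopicRel h6 (0 : ℝ) (by
    change u (ℓ 0) = _
    rw [ℓ.source, hx0]) (by
    change u x = _
    rw [hx0])
  have h8 : (⟨fun t : unitInterval => (t : ℝ), by fun_prop⟩ : C(unitInterval, ℝ)) =
      cov.liftPath (u.comp ℓ.toContinuousMap) 0 (by
        change u (ℓ 0) = _
        rw [ℓ.source, hx0]) := by
    rw [cov.eq_liftPath_iff']
    refine ⟨?_, ?_⟩
    · funext t
      exact (hu t).symm
    · simp
  have h9 : (ContinuousMap.const unitInterval (0 : ℝ)) =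
      cov.liftPath (u.comp (Path.refl x).toContinuousMap) 0 (by
        change u x = _
        rw [hx0]) := by
    rw [cov.eq_liftPath_iff']
    refine ⟨?_, ?_⟩
    · funext t
      exact hx0.symm
    · simp
  rw [← h8, ← h9] at h7
  norm_num at h7

end Pool.Agent.Y833.GL
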