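import Pool.Agent.Y833.GL.Line
import Pool.Agent.Y833.GL.TopLoops

/-!
# The classifying space functor does not preserve weak equivalences
-/

set_option autoImplicit false

open CategoryTheory Opposite

namespace Pool.Agent.Y833.GL

open Pool.Agent.TH24.Glob

variable {C : Type} [SmallCategory C] {G : Globe C}

/-- the homotopy quotient of the line by the integers -/
noncomputable def XR (P : Mor G V) (F : Mor G disks) : InfGrpd G :=
  hq P (LW_isInfGroupoid F) (LWact F)

/-- the circle -/
noncomputable def circ : TopCat.{0} := TopCat.of (AddCircle (1 : ℝ))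

/-- the covering of the circle by the line -/
noncomputable def proj : line ⟶ circ :=
  TopCat.ofHom ⟨fun x : ℝ => (x : AddCircle (1 : ℝ)), AddCircle.continuous_mk' 1⟩

/-- an element of the presheaf of the line as a map -/
abbrev fn {F : Mor G disks} {S : C} (w : (LW F).obj (op S)) : F.F.obj S ⟶ line := w

theorem act_proj (F : Mor G disks) {S : C} (n : Zm) (w : (LW F).obj (op S)) :
    fn ((LWact F).act n w) ≫ proj = fn w ≫ proj := by
  ext x
  change ((ev w x + ((Multiplicative.toAdd n : ℤ) : ℝ) : ℝ) : AddCircle (1 : ℝ)) =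
    (ev w x : AddCircle (1 : ℝ))
  rw [AddCircle.coe_add]
  have : (((Multiplicative.toAdd n : ℤ) : ℝ) : AddCircle (1 : ℝ)) = 0 := by
    rw [AddCircle.coe_eq_zero_iff]
    exact ⟨Multiplicative.toAdd n, by simp⟩
  rw [this, add_zero]

/-- the family of maps to the circle -/
noncomputable def toCirc (hG : IsCoherator G) (P : Mor G V) (F : Mor G disks) :
    (XR P F).obj ⟶ (Presheaf.restrictedULiftYoneda.{0} F.F).obj circ where
  app S := TypeCat.ofHom fun z =>
    ULift.up (fn (z.1.2 (P_nonempty hG P S.unop).some) ≫ proj)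
  naturality S T f := by
    apply ConcreteCategory.hom_ext
    intro z
    apply ULift.ext
    change (F.F.map f.unop ≫ fn (z.1.2 _)) ≫ proj = F.F.map f.unop ≫ (fn (z.1.2 _) ≫ proj)
    rw [Category.assoc]
    congr 1
    rw [z.2 _ (P_nonempty hG P S.unop).some]
    exact act_proj F _ _

section

variable (hG : IsCoherator G) (P : Mor G V) (F : Mor G disks)

/-- the map from the classifying space to the circle -/
noncomputable def uc : (classifying F).obj (XR P F) ⟶ circ :=
  ((adj F).homEquiv _ _).symm (toCirc hG P F)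

theorem evalAt_comp {X : Cᵒᵖ ⥤ Type} {Y : TopCat.{0}}
    (u : ((uliftYoneda.{0}).leftKanExtension F.F).obj X ⟶ Y) (S : C) (z : X.obj (op S)) :
    evalAt F ((adj F).homEquiv X _ (𝟙 (((uliftYoneda.{0}).leftKanExtension F.F).obj X))) S z ≫ u =
      evalAt F ((adj F).homEquiv X Y u) S z := by
  rw [evalAt_adj, evalAt_adj, Category.comp_id, Category.assoc]

/-- the map given by a cell -/
noncomputable def mc (S : C) (z : (XR P F).obj.obj (op S)) :
    F.F.obj S ⟶ (classifying F).obj (XR P F) :=
  evalAt F ((adj F).homEquiv (XR P F).obj _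
    (𝟙 (((uliftYoneda.{0}).leftKanExtension F.F).obj (XR P F).obj))) S z

theorem mc_uc (S : C) (z : (XR P F).obj.obj (op S)) :
    mc P F S z ≫ uc hG P F = fn (z.1.2 (P_nonempty hG P S).some) ≫ proj := by
  have h2 := evalAt_comp F (X := (XR P F).obj) (uc hG P F) S z
  have h3 : (adj F).homEquiv (XR P F).obj circ (uc hG P F) = toCirc hG P F :=
    Equiv.apply_symm_apply _ _
  rw [h3] at h2
  exact h2

theorem mc_map {S S' : C} (f : S ⟶ S') (z : (XR P F).obj.obj (op S')) (x : F.F.obj S) :
    mc P F S ((XR P F).obj.map f.op z) x = mc P F S' z (F.F.map f x) :=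
  evalAt_map_apply F _ f z x

/-- the affine map from the disk of dimension one to the line -/
noncomputable def aff : disks.D 1 ⟶ line :=
  TopCat.ofHom (X := Disk 1) (Y := ℝ) ⟨fun x => (x.1 0 + 1) / 2,
    ((((continuous_apply 0).comp continuous_subtype_val).add continuous_const).div_const 2)⟩

/-- the coordinate on the disk of dimension one -/
noncomputable def cd (y : F.F.obj (G.D 1)) : ℝ := (show Disk 1 from (F.e 1).hom y).1 0

theorem cd_σ (x : F.F.obj (G.D 0)) : cd F (F.F.map (G.σ 0) x) = -1 := by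
  have h1 : (show Disk 1 from (F.e 1).hom (F.F.map (G.σ 0) x)) =
      diskMap (-1) (by norm_num) 0 (show Disk 0 from (F.e 0).hom x) :=
    ConcreteCategory.congr_hom (F.hσ 0) x
  unfold cd
  rw [h1]
  generalize (show Disk 0 from (F.e 0).hom x) = y
  change (Fin.snoc y.1 (-1 * Real.sqrt (1 - ∑ j, y.1 j ^ 2)) : Fin 1 → ℝ) (Fin.last 0) = -1
  rw [Fin.snoc_last]
  simp

theorem cd_τ (x : F.F.obj (G.D 0)) : cd F (F.F.map (G.τ 0) x) = 1 := by
  have h1 : (show Disk 1 from (F.e 1).hom (F.F.map (G.τ 0) x)) =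
      diskMap 1 (by norm_num) 0 (show Disk 0 from (F.e 0).hom x) :=
    ConcreteCategory.congr_hom (F.hτ 0) x
  unfold cd
  rw [h1]
  generalize (show Disk 0 from (F.e 0).hom x) = y
  change (Fin.snoc y.1 (1 * Real.sqrt (1 - ∑ j, y.1 j ^ 2)) : Fin 1 → ℝ) (Fin.last 0) = 1
  rw [Fin.snoc_last]
  simp

/-- the potential -/
def pot (x : P.F.obj (G.D 1)) : ℤ := bif (show Bool from (P.e 1).hom x) then 1 else 0

theorem pot_σ : pot P (ptσ P) = 0 := by
  unfold pot
  rw [e_ptσ]
  rfl

theorem pot_τ : pot P (ptτ P) = 1 := by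
  unfold pot
  rw [e_ptτ]
  rfl

/-- the standard map to the line -/
noncomputable def g1 : (LW F).obj (op (G.D 1)) := (F.e 1).hom ≫ aff

theorem ev_g1 (y : F.F.obj (G.D 1)) : ev (g1 F) y = (cd F y + 1) / 2 := rfl

/-- the loop -/
noncomputable def z1 : cell (XR P F) 1 :=
  ⟨(Coc.ofPot (A := Zm) (X := P.F.obj (G.D 1)) fun x => Multiplicative.ofAdd (pot P x),
    fun p => (LWact F).act (Multiplicative.ofAdd (-pot P p)) (g1 F)), fun p q => by
    change (LWact F).act _ _ = (LWact F).act _ ((LWact F).act _ _)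
    rw [← (LWact F).mul]
    congr 1
    change _ = ((Multiplicative.ofAdd (pot P p))⁻¹ * Multiplicative.ofAdd (pot P q)) *
      Multiplicative.ofAdd (-pot P q)
    rw [ofAdd_neg, ofAdd_neg]
    group⟩

theorem z1_loop : src (XR P F) (z1 P F) = tgt (XR P F) (z1 P F) := by
  refine HQ.ext (fun p q => ?_) (fun p => ?_)
  · obtain rfl := P_zero P p q
    rw [Coc.self, Coc.self]
  · obtain rfl := P_zero P (pt0 P) p
    apply ev_ext
    intro x
    change ev (g1 F) (F.F.map (G.σ 0) x) + (((-pot P (ptσ P) : ℤ)) : ℝ) =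
      ev (g1 F) (F.F.map (G.τ 0) x) + (((-pot P (ptτ P) : ℤ)) : ℝ)
    rw [ev_g1, ev_g1, cd_σ, cd_τ, pot_σ, pot_τ]
    norm_num

/-- the standard path in the disk of dimension one -/
noncomputable def dl (t : unitInterval) : Disk 1 := ⟨fun _ => 2 * (t : ℝ) - 1, by
  have h1 := t.2.1
  have h2 := t.2.2
  simp only [Finset.univ_unique, Finset.sum_const, Finset.card_singleton, one_smul]
  nlinarith⟩

theorem continuous_dl : Continuous dl := Continuous.subtype_mk (by fun_prop) _

theorem dl_zero : dl 0 = diskMap (-1) (by norm_num) 0 (⟨0, by simp⟩ : Disk 0) := by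
  apply Subtype.ext
  funext j
  obtain rfl : j = Fin.last 0 := Subsingleton.elim _ _
  change 2 * ((0 : unitInterval) : ℝ) - 1 = (Fin.snoc (0 : Fin 0 → ℝ)
    (-1 * Real.sqrt (1 - ∑ j, (0 : Fin 0 → ℝ) j ^ 2)) : Fin 1 → ℝ) (Fin.last 0)
  rw [Fin.snoc_last]
  simp

theorem dl_one : dl 1 = diskMap 1 (by norm_num) 0 (⟨0, by simp⟩ : Disk 0) := by
  apply Subtype.ext
  funext j
  obtain rfl : j = Fin.last 0 := Subsingleton.elim _ _
  change 2 * ((1 : unitInterval) : ℝ) - 1 = (Fin.snoc (0 : Fin 0 → ℝ)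
    (1 * Real.sqrt (1 - ∑ j, (0 : Fin 0 → ℝ) j ^ 2)) : Fin 1 → ℝ) (Fin.last 0)
  rw [Fin.snoc_last]
  norm_num

/-- the standard path in `F(D_1)` -/
noncomputable def dF (t : unitInterval) : F.F.obj (G.D 1) :=
  (F.e 1).inv (show disks.D 1 from dl t)

theorem continuous_dF : Continuous (dF F) :=
  (F.e 1).inv.hom.continuous.comp continuous_dl

theorem dF_zero : dF F 0 = F.F.map (G.σ 0) (x0 F) := by
  unfold dF
  rw [dl_zero]
  exact ConcreteCategory.congr_hom (F.map_σ 0) (show disks.D 0 from (⟨0, by simp⟩ : Disk 0))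

theorem dF_one : dF F 1 = F.F.map (G.τ 0) (x0 F) := by
  unfold dF
  rw [dl_one]
  exact ConcreteCategory.congr_hom (F.map_τ 0) (show disks.D 0 from (⟨0, by simp⟩ : Disk 0))

theorem cd_dF (t : unitInterval) : cd F (dF F t) = 2 * (t : ℝ) - 1 := by
  have h : ((F.e 1).inv ≫ (F.e 1).hom) (show disks.D 1 from dl t) = (show disks.D 1 from dl t) := by
    rw [Iso.inv_hom_id]
    rfl
  exact congrArg (fun d : Disk 1 => d.1 0) h

/-- the loop in the classifying space -/
noncomputable def lp : Path (X := (classifying F).obj (XR P F))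
    (mc P F (G.D 0) (src (XR P F) (z1 P F)) (x0 F))
    (mc P F (G.D 0) (src (XR P F) (z1 P F)) (x0 F)) where
  toFun t := mc P F (G.D 1) (z1 P F) (dF F t)
  continuous_toFun := (mc P F (G.D 1) (z1 P F)).hom.continuous.comp (continuous_dF F)
  source' := by
    rw [src, mc_map, dF_zero]
  target' := by
    rw [z1_loop, tgt, mc_map, dF_one]

theorem uc_lp (t : unitInterval) :
    (uc hG P F).hom (lp P F t) = ((t : ℝ) : AddCircle (1 : ℝ)) := by
  have h1 : (uc hG P F).hom (lp P F t) =
      (mc P F (G.D 1) (z1 P F) ≫ uc hG P F) (dF F t) := rfl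
  rw [h1, mc_uc]
  have h2 : fn ((z1 P F).1.2 (P_nonempty hG P (G.D 1)).some) ≫ proj =
      fn (g1 F) ≫ proj := act_proj F _ _
  rw [h2]
  change ((ev (g1 F) (dF F t) : ℝ) : AddCircle (1 : ℝ)) = _
  rw [ev_g1, cd_dF]
  congr 1
  ring

include hG in
/-- The map of classifying spaces does not induce a bijection of free loops. -/
theorem not_injective_loops : ¬ Function.Injective
    (topLoops.map ((classifying F).map (hqProj P (LW_isInfGroupoid F) (LWact F)))) :=
  not_iso_of_loop _ (fun x y => classifying_BA_subsingleton hG F x y) (uc hG P F).hom _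
    (lp P F) (uc_lp hG P F)

end

/-- **The classifying space functor induces no functor between the localised categories.** -/
theorem main {C : Type} [SmallCategory C] {G : Globe C} (hG : IsCoherator G) (κ : Units G)
    (F : Mor G disks) :
    (∃ (X Y : InfGrpd G) (f : X ⟶ Y), weakEq κ f ∧ ¬ weakHomotopyEq ((classifying F).map f)) ∧
    ¬ ∃ R : (weakEq κ : MorphismProperty (InfGrpd G)).Localization ⥤ weakHomotopyEq.Localization,
      Nonempty ((weakEq κ : MorphismProperty (InfGrpd G)).Q ⋙ R ≅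
        classifying F ⋙ weakHomotopyEq.Q) := by
  obtain ⟨P⟩ := exists_mor hG (isExtension_type V) V_lift
  have hf := hqProj_weakEq hG κ P (LW_isInfGroupoid F) (LWact F) (LW_contr F)
  have hn := not_injective_loops hG P F
  refine ⟨⟨_, _, _, hf, fun h => hn (topLoops_bijective _ h).1⟩, ?_⟩
  rintro ⟨R, ⟨e⟩⟩
  have h1 : IsIso ((weakEq κ : MorphismProperty (InfGrpd G)).Q.map
      (hqProj P (LW_isInfGroupoid F) (LWact F))) :=
    MorphismProperty.Q_inverts _ _ hf
  have h2 : IsIso (((weakEq κ : MorphismProperty (InfGrpd G)).Q ⋙ R).map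
      (hqProj P (LW_isInfGroupoid F) (LWact F))) := by
    rw [Functor.comp_map]
    infer_instance
  have h3 : IsIso ((classifying F ⋙ weakHomotopyEq.Q).map
      (hqProj P (LW_isInfGroupoid F) (LWact F))) := (NatIso.isIso_map_iff e _).1 h2
  let Φ : weakHomotopyEq.Localization ⥤ Type :=
    Localization.lift topLoops topLoops_inverts weakHomotopyEq.Q
  let j : weakHomotopyEq.Q ⋙ Φ ≅ topLoops := Localization.fac _ _ _
  have h4 : IsIso ((weakHomotopyEq.Q ⋙ Φ).map ((classifying F).map
      (hqProj P (LW_isInfGroupoid F) (LWact F)))) := by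
    rw [Functor.comp_map]
    rw [Functor.comp_map] at h3
    infer_instance
  have h5 : IsIso (topLoops.map ((classifying F).map
      (hqProj P (LW_isInfGroupoid F) (LWact F)))) := (NatIso.isIso_map_iff j _).1 h4
  exact hn ((isIso_iff_bijective _).1 h5).1

end Pool.Agent.Y833.GL
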